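import Pool.Agent.Run7.h741.XK.Qf

/-!
# Project XK: the residue fields above three
-/

set_option autoImplicit false

open NumberField IsDedekindDomain WithZero Topology

namespace Run7.h741.XK

open Run7.h135.XK

section gen

variable {R F : Type} [CommRing R] [IsDedekindDomain R] [Field F] [Algebra R F]
  [IsFractionRing R F] (v : HeightOneSpectrum R)

/-- The valuation of the completion. -/
noncomputable def vv : Valuation (v.adicCompletion F) (WithZero (Multiplicative ℤ)) :=
  (Valued.v (R := v.adicCompletion F) (Γ₀ := WithZero (Multiplicative ℤ)))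

theorem vv_coe (x : F) : vv v (algebraMap F (v.adicCompletion F) x) = v.valuation F x :=
  HeightOneSpectrum.adicCompletion.valued_coe F v x

/-- Elements of the completion are close to elements of the field. -/
theorem dense_F (x : v.adicCompletion F) {g : F} (hg : g ≠ 0) :
    ∃ f : F, vv v (x - algebraMap F (v.adicCompletion F) f) < v.valuation F g := by
  let g' : v.adicCompletion F := algebraMap F (v.adicCompletion F) g
  have hg' : g' ≠ 0 := (_root_.map_ne_zero _).2 hg
  have h1 : {y : v.adicCompletion F | (Valued.v (R := v.adicCompletion F)).restrict (y - x) <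
      (Units.mk0 ((Valued.v (R := v.adicCompletion F)).restrict g') (by simpa using hg')).1} ∈
      𝓝 x := by
    rw [Valued.mem_nhds]
    exact ⟨_, subset_rfl⟩
  obtain ⟨f, hf⟩ := (HeightOneSpectrum.denseRange_algebraMap F v).mem_nhds h1
  refine ⟨f, ?_⟩
  have h2 : (Valued.v (R := v.adicCompletion F)).restrict (algebraMap F _ f - x) <
    (Valued.v (R := v.adicCompletion F)).restrict g' := hf
  rw [Valuation.restrict_lt_iff] at h2
  have h3 : Valued.v (R := v.adicCompletion F) g' = v.valuation F g :=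
    HeightOneSpectrum.adicCompletion.valued_coe F v g
  rw [h3, Valuation.map_sub_swap] at h2
  exact h2

/-- Integral elements of the completion are congruent to elements of `R`. -/
theorem dense_R (x : v.adicCompletion F) (hx : vv v x ≤ 1) :
    ∃ r : R, vv v (x - algebraMap F (v.adicCompletion F) (algebraMap R F r)) < 1 := by
  obtain ⟨f, hf⟩ := dense_F v x (g := 1) one_ne_zero
  rw [map_one] at hf
  have h1 : v.valuation F f ≤ 1 := by
    rw [← vv_coe]
    have e : algebraMap F (v.adicCompletion F) f =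
        x - (x - algebraMap F (v.adicCompletion F) f) := by ring
    rw [e]
    exact (Valuation.map_sub _ _ _).trans (max_le hx hf.le)
  obtain ⟨a, ha⟩ := v.exists_valuation_sub_lt_of_integer (K := F) h1 1
  refine ⟨a, ?_⟩
  have e : x - algebraMap F (v.adicCompletion F) (algebraMap R F a) =
      (x - algebraMap F (v.adicCompletion F) f) -
        algebraMap F (v.adicCompletion F) (algebraMap R F a - f) := by
    rw [map_sub]; ring
  rw [e]
  refine lt_of_le_of_lt (Valuation.map_sub _ _ _) (max_lt hf ?_)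
  rw [vv_coe]
  exact ha

/-- elements of the prime ideal -/
theorem vv_lt {a : R} : vv v (algebraMap F (v.adicCompletion F) (algebraMap R F a)) < 1 ↔
    a ∈ v.asIdeal := by
  rw [vv_coe, HeightOneSpectrum.valuation_lt_one_iff_mem]

end gen

/-- the integers modulo a prime above three -/
theorem res3 {K : Type} [Field K] [NumberField K] {n : ℕ} {r : K} (hn : Cl n) (h : QK K n r)
    {v : HeightOneSpectrum (𝓞 K)} (hv : (3 : 𝓞 K) ∈ v.asIdeal) (α : 𝓞 K) :
    ∃ m : ℤ, α - m ∈ v.asIdeal := by
  obtain ⟨ω, c, hω, hω2⟩ := exists_om hn h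
  have hr := r_int hn h hω
  have h3 : n % 3 = 2 := by
    have := hn.2
    omega
  have h1 : (2 * ω - 1 - 1) * (2 * ω - 1 + 1) ∈ v.asIdeal := by
    obtain ⟨k, hk⟩ : ∃ k : ℕ, n + 1 = 3 * k := ⟨(n + 1) / 3, by omega⟩
    have e : (2 * ω - 1 - 1) * (2 * ω - 1 + 1) = 3 * (-(k : 𝓞 K)) := by
      have hk' : (n : 𝓞 K) + 1 = 3 * k := by exact_mod_cast hk
      linear_combination hr - hk'
    rw [e]
    exact v.asIdeal.mul_mem_right _ hv
  have h2 : ω - 1 ∈ v.asIdeal ∨ ω ∈ v.asIdeal := by
    rcases v.isPrime.mem_or_mem h1 with h4 | h4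
    · left
      have e : ω - 1 = 2 * (2 * ω - 1 - 1) - 3 * (ω - 1) := by ring
      rw [e]
      exact v.asIdeal.sub_mem (v.asIdeal.mul_mem_left _ h4) (v.asIdeal.mul_mem_right _ hv)
    · right
      have e : ω = 2 * (2 * ω - 1 + 1) - 3 * ω := by ring
      rw [e]
      exact v.asIdeal.sub_mem (v.asIdeal.mul_mem_left _ h4) (v.asIdeal.mul_mem_right _ hv)
  obtain ⟨x, y, rfl⟩ := basis hn h hω α
  rcases h2 with h2 | h2
  · refine ⟨x + y, ?_⟩
    have e : (x : 𝓞 K) + y * ω - ((x + y : ℤ) : 𝓞 K) = y * (ω - 1) := by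
      push_cast
      ring
    rw [e]
    exact v.asIdeal.mul_mem_left _ h2
  · refine ⟨x, ?_⟩
    have e : (x : 𝓞 K) + y * ω - (x : 𝓞 K) = y * ω := by ring
    rw [e]
    exact v.asIdeal.mul_mem_left _ h2

/-- **PL3** -/
theorem t_PL3 : S_PL3 := by
  intro K _ _ n r hn h v hv t ht
  have ht' : vv v (t ^ 2 + 1) < 1 := ht
  have h1 : vv v t ≤ 1 := by
    have h2 : vv v (t ^ 2) ≤ 1 := by
      have e : t ^ 2 = (t ^ 2 + 1) - 1 := by ring
      rw [e]
      exact (Valuation.map_sub _ _ _).trans (max_le ht'.le (map_one _).le)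
    rw [map_pow] at h2
    exact (pow_le_one_iff (by norm_num)).1 h2
  obtain ⟨a, ha⟩ := dense_R (F := K) v t h1
  obtain ⟨m, hm⟩ := res3 hn h hv a
  have h3 := (vv_lt (F := K) v).2 hm
  set θ := algebraMap K (v.adicCompletion K)
  have h4 : vv v (t - (m : v.adicCompletion K)) < 1 := by
    have e : t - (m : v.adicCompletion K) = (t - θ (algebraMap (𝓞 K) K a)) +
        θ (algebraMap (𝓞 K) K (a - m)) := by
      rw [map_sub, map_sub, map_intCast, map_intCast]
      ring
    rw [e]
    exact (Valuation.map_add _ _ _).trans_lt (max_lt ha h3)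
  have hmi : vv v (m : v.adicCompletion K) ≤ 1 := by
    have e : (m : v.adicCompletion K) = θ (algebraMap (𝓞 K) K (m : 𝓞 K)) := by
      rw [map_intCast, map_intCast]
    rw [e, vv_coe]
    exact HeightOneSpectrum.valuation_le_one v _
  have h5 : vv v ((m : v.adicCompletion K) ^ 2 + 1) < 1 := by
    have e : (m : v.adicCompletion K) ^ 2 + 1 = (t ^ 2 + 1) -
        (t - (m : v.adicCompletion K)) * (t + (m : v.adicCompletion K)) := by ring
    rw [e]
    refine (Valuation.map_sub _ _ _).trans_lt (max_lt ht' ?_)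
    rw [map_mul]
    refine mul_lt_one_of_lt_of_le h4 ?_
    exact (Valuation.map_add _ _ _).trans (max_le h1 hmi)
  have h6 : (((m ^ 2 + 1 : ℤ)) : 𝓞 K) ∈ v.asIdeal := by
    rw [← vv_lt (F := K) v, map_intCast, map_intCast]
    push_cast
    exact h5
  have h7 := int_mem Nat.prime_three (by exact_mod_cast hv) h6
  have h8 : (m ^ 2 + 1) % 3 = 0 := Int.emod_eq_zero_of_dvd h7
  have h9 : m % 3 = 0 ∨ m % 3 = 1 ∨ m % 3 = 2 := by omega
  rcases h9 with h9 | h9 | h9 <;> rw [Int.add_emod, pow_two, Int.mul_emod, h9] at h8 <;>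
    norm_num at h8

end Run7.h741.XK
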