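import Pool.Agent.Run7.h741.XK.Plc2

/-!
# Project XK, analytic side: piece PLC (the places of `ℚ(√(-n))`)
-/

set_option autoImplicit false

open NumberField IsDedekindDomain WithZero

namespace Run7.h741.XK.Plc

open Run7.h135.XK (QK)
open Run7.h741.XK (int_mem)
open Pool.Agent.H921R2.TatePole (below deg nm nm_eq)
open Pool.Agent.Y682.XF (kr)
open Run7.h555.XK (QF S_PLC)

section

variable {n : ℕ} {c : ℤ}

theorem four (hc : 4 * c = n + 1) (a : ℤ) : 4 * (a ^ 2 - a + c) = (2 * a - 1) ^ 2 + n := by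
  linear_combination hc

theorem dvd_of_four {p : ℕ} (hp : p.Prime) (hp2 : p ≠ 2) {m : ℤ} (h : (p : ℤ) ∣ 4 * m) :
    (p : ℤ) ∣ m := by
  have h4 : (4 : ℤ) = 2 * 2 := by norm_num
  rw [h4, mul_assoc] at h
  have hpi := Nat.prime_iff_prime_int.1 hp
  have h2 : ¬ (p : ℤ) ∣ 2 := by
    intro h5
    have h6 : p ∣ 2 := by exact_mod_cast h5
    exact hp2 ((Nat.prime_dvd_prime_iff_eq hp Nat.prime_two).1 h6)
  exact (hpi.dvd_or_dvd ((hpi.dvd_or_dvd h).resolve_left h2)).resolve_left h2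

theorem root_one (hc : 4 * c = n + 1) (p : Nat.Primes) (h : kr (-(n : ℤ)) p = 1)
    (hpn : ¬ (p : ℕ) ∣ n) : ∃ a : ℤ, ((p : ℕ) : ℤ) ∣ a ^ 2 - a + c := by
  have hp := p.2
  unfold kr at h
  by_cases hp2 : (p : ℕ) = 2
  · rw [if_pos hp2] at h
    split_ifs at h with h8
    refine ⟨0, ?_⟩
    rw [hp2]
    push_cast
    omega
  · rw [if_neg hp2] at h
    haveI : Fact (p : ℕ).Prime := ⟨hp⟩
    rw [← jacobiSym.legendreSym.to_jacobiSym] at h
    have h0 : ((-(n : ℤ) : ℤ) : ZMod (p : ℕ)) ≠ 0 := by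
      intro h1
      rw [ZMod.intCast_zmod_eq_zero_iff_dvd, dvd_neg] at h1
      exact hpn (by exact_mod_cast h1)
    obtain ⟨t, ht⟩ := (legendreSym.eq_one_iff (p : ℕ) h0).1 h
    have h1 : ((p : ℕ) : ℤ) ∣ (t.val : ℤ) ^ 2 + n := by
      rw [← ZMod.intCast_zmod_eq_zero_iff_dvd]
      push_cast
      push_cast at ht
      rw [ZMod.natCast_zmod_val]
      linear_combination -ht
    obtain ⟨q, hq⟩ : ∃ q : ℤ, ((p : ℕ) : ℤ) = 2 * q + 1 := by
      have := hp.eq_two_or_odd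
      exact ⟨((p : ℕ) : ℤ) / 2, by omega⟩
    refine ⟨(1 + (t.val : ℤ)) * (q + 1), dvd_of_four hp hp2 ?_⟩
    rw [four hc]
    have e : (2 * ((1 + (t.val : ℤ)) * (q + 1)) - 1) ^ 2 + (n : ℤ) =
        ((t.val : ℤ) ^ 2 + n) + ((p : ℕ) : ℤ) * ((1 + (t.val : ℤ)) *
          (2 * (t.val : ℤ) + ((p : ℕ) : ℤ) * (1 + (t.val : ℤ)))) := by
      rw [hq]
      ring
    rw [e]
    exact dvd_add h1 (dvd_mul_right _ _)

theorem no_root (hc : 4 * c = n + 1) (h4 : n % 4 = 3) (p : Nat.Primes)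
    (h : kr (-(n : ℤ)) p = -1) (a : ℤ) : ¬ ((p : ℕ) : ℤ) ∣ a ^ 2 - a + c := by
  have hp := p.2
  intro hr
  unfold kr at h
  by_cases hp2 : (p : ℕ) = 2
  · rw [if_pos hp2] at h
    have h8 : ¬ (-(n : ℤ)) % 8 = 1 := by
      intro h1
      rw [if_pos h1] at h
      norm_num at h
    rw [hp2] at hr
    have h1 : Even (a * (a - 1)) := Int.even_mul_pred_self a
    obtain ⟨k, hk⟩ := h1
    have e : a ^ 2 - a + c = a * (a - 1) + c := by ring
    rw [e, hk] at hr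
    push_cast at hr
    omega
  · rw [if_neg hp2] at h
    haveI : Fact (p : ℕ).Prime := ⟨hp⟩
    rw [← jacobiSym.legendreSym.to_jacobiSym] at h
    refine (legendreSym.eq_neg_one_iff (p : ℕ)).1 h ⟨((2 * a - 1 : ℤ) : ZMod (p : ℕ)), ?_⟩
    have h1 : ((p : ℕ) : ℤ) ∣ (2 * a - 1) ^ 2 + n := by
      rw [← four hc]
      exact dvd_mul_of_dvd_right hr _
    rw [← ZMod.intCast_zmod_eq_zero_iff_dvd] at h1
    push_cast at h1 ⊢
    linear_combination -h1

theorem root_ram (hc : 4 * c = n + 1) (h4 : n % 4 = 3) (p : Nat.Primes) (hpn : (p : ℕ) ∣ n) :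
    ∃ a : ℤ, ((p : ℕ) : ℤ) ∣ a ^ 2 - a + c ∧ 2 * a - 1 = ((p : ℕ) : ℤ) := by
  have hp := p.2
  have hp2 : (p : ℕ) ≠ 2 := by
    intro h2
    rw [h2] at hpn
    omega
  obtain ⟨q, hq⟩ : ∃ q : ℤ, ((p : ℕ) : ℤ) = 2 * q + 1 := by
    have := hp.eq_two_or_odd
    exact ⟨((p : ℕ) : ℤ) / 2, by omega⟩
  refine ⟨q + 1, dvd_of_four hp hp2 ?_, by rw [hq]; ring⟩
  rw [four hc]
  have e : 2 * (q + 1) - 1 = ((p : ℕ) : ℤ) := by rw [hq]; ring
  rw [e]
  exact dvd_add (dvd_pow_self _ two_ne_zero) (by exact_mod_cast hpn)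

end

theorem t_PLC : S_PLC := by
  intro K _ _ n hK hn h4 p
  obtain ⟨c, ω, D⟩ := dat hK hn h4
  have hp := p.2
  have hmem : ∀ v : HeightOneSpectrum (𝓞 K), below v = p → ((p : ℕ) : 𝓞 K) ∈ v.asIdeal := by
    intro v hv
    have := (nm_eq v).2.2
    rw [hv] at this
    exact this
  have hbel : ∀ v : HeightOneSpectrum (𝓞 K), ((p : ℕ) : 𝓞 K) ∈ v.asIdeal → below v = p :=
    fun v hv => Subtype.ext (below_eq hp hv)
  have hdeg : ∀ a : ℤ, ((p : ℕ) : ℤ) ∣ a ^ 2 - a + c → ∀ v : HeightOneSpectrum (𝓞 K),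
      below v = p → deg v = 1 := by
    intro a ha v hv
    rcases cases D (hmem v hv) ha with h | h
    · exact deg_one D hp (hmem v hv) h
    · exact deg_one D hp (hmem v hv) h
  have hroot : ∀ a : ℤ, ((p : ℕ) : ℤ) ∣ a ^ 2 - a + c →
      ((p : ℕ) : ℤ) ∣ (1 - a) ^ 2 - (1 - a) + c := by
    intro a ha
    have e : (1 - a) ^ 2 - (1 - a) + c = a ^ 2 - a + c := by ring
    rw [e]
    exact ha
  refine ⟨fun hk hpn => ?_, fun hk hpn => ?_, fun hpn => ?_, fun hpn v hv => ?_⟩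
  · obtain ⟨a, ha⟩ := root_one D.c4 p hk hpn
    refine ⟨hdeg a ha, ?_⟩
    obtain ⟨v1, h1, h1a⟩ := exists_pl D hp ha
    obtain ⟨v2, h2, h2a⟩ := exists_pl D hp (hroot a ha)
    rw [Nat.card_eq_two_iff]
    refine ⟨⟨v1, hbel v1 h1⟩, ⟨v2, hbel v2 h2⟩, fun h12 => ?_, ?_⟩
    · have h3 : v1 = v2 := congrArg Subtype.val h12
      rw [← h3] at h2a
      have h5 : ((1 - 2 * a : ℤ) : 𝓞 K) ∈ v1.asIdeal := by
        have e : ((1 - 2 * a : ℤ) : 𝓞 K) = (ω - (a : 𝓞 K)) - (ω - ((1 - a : ℤ) : 𝓞 K)) := by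
          push_cast
          ring
        rw [e]
        exact v1.asIdeal.sub_mem h1a h2a
      have h6 := int_mem hp h1 h5
      have h7 : ((p : ℕ) : ℤ) ∣ n := by
        have h8 := dvd_mul_of_dvd_right ha 4
        rw [four D.c4] at h8
        have e : (2 * a - 1) ^ 2 + (n : ℤ) = (1 - 2 * a) * (1 - 2 * a) + n := by ring
        rw [e] at h8
        exact (dvd_add_right (dvd_mul_of_dvd_left h6 _)).1 h8
      exact hpn (by exact_mod_cast h7)
    · refine Set.eq_univ_of_forall ?_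
      rintro ⟨v, hv⟩
      rw [Set.mem_insert_iff, Set.mem_singleton_iff]
      rcases cases D (hmem v hv) ha with h | h
      · left
        exact Subtype.ext (uniq D hp (hmem v hv) h1 (by rw [sub_self]; exact dvd_zero _) h h1a)
      · right
        exact Subtype.ext (uniq D hp (hmem v hv) h2 (by rw [sub_self]; exact dvd_zero _) h h2a)
  · have hd : ∀ v : HeightOneSpectrum (𝓞 K), below v = p → deg v = 2 := by
      intro v hv
      have h1 := (deg_le D hp (hmem v hv)).1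
      have h2 := (nm_eq v).2.1
      have h3 : deg v ≠ 1 := by
        intro h5
        obtain ⟨a, ha⟩ := exists_root D hp (hmem v hv) h5
        exact no_root D.c4 h4 p hk a ha
      omega
    refine ⟨hd, Nat.card_eq_one_iff_unique.2 ⟨⟨?_⟩, ?_⟩⟩
    · rintro ⟨v, hv⟩ ⟨v', hv'⟩
      refine Subtype.ext (HeightOneSpectrum.ext ?_)
      rw [(deg_le D hp (hmem v hv)).2 (hd v hv), (deg_le D hp (hmem v' hv')).2 (hd v' hv')]
    · have hI : Ideal.span {((p : ℕ) : 𝓞 K)} ≠ ⊤ := by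
        intro h
        have h2 : Ideal.absNorm (Ideal.span {((p : ℕ) : 𝓞 K)}) = (p : ℕ) ^ 2 := by
          rw [Ideal.absNorm_span_natCast, RingOfIntegers.rank, D.rk]
        rw [h, Ideal.absNorm_top] at h2
        have := hp.one_lt
        nlinarith
      obtain ⟨v, hv⟩ := exists_max hp hI (Ideal.mem_span_singleton_self _)
      exact ⟨⟨v, hbel v (hv (Ideal.mem_span_singleton_self _))⟩⟩
  · obtain ⟨a, ha, h2a⟩ := root_ram D.c4 h4 p hpn
    refine ⟨hdeg a ha, Nat.card_eq_one_iff_unique.2 ⟨⟨?_⟩, ?_⟩⟩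
    · have key : ∀ v : HeightOneSpectrum (𝓞 K), below v = p → ω - (a : 𝓞 K) ∈ v.asIdeal := by
        intro v hv
        rcases cases D (hmem v hv) ha with h | h
        · exact h
        · have e : ω - (a : 𝓞 K) = (ω - ((1 - a : ℤ) : 𝓞 K)) - ((2 * a - 1 : ℤ) : 𝓞 K) := by
            push_cast
            ring
          rw [e]
          refine v.asIdeal.sub_mem h ?_
          rw [h2a, Int.cast_natCast]
          exact hmem v hv
      rintro ⟨v, hv⟩ ⟨v', hv'⟩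
      exact Subtype.ext (uniq D hp (hmem v hv) (hmem v' hv') (by rw [sub_self]; exact dvd_zero _)
        (key v hv) (key v' hv'))
    · obtain ⟨v, hv, -⟩ := exists_pl D hp ha
      exact ⟨⟨v, hbel v hv⟩⟩
  · obtain ⟨r, hr⟩ := hK.sq
    exact plv hn h4 (gen_of hn.ne_zero hK.two hr) v p hp (hmem v hv) hpn

end Run7.h741.XK.Plc
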