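import Pool.Agent.Run7.h135.XK.Stm

/-!
# Project XK: the ring of integers of `ℚ(√(-n))`, the unramified primes, the primes above three
-/

set_option autoImplicit false

open NumberField IsDedekindDomain WithZero

namespace Run7.h741.XK

open Run7.h135.XK

/-- a rational number with integral square multiple by a squarefree number -/
theorem int_of_sq {n : ℕ} (hn : Squarefree n) {q : ℚ} {m : ℤ} (h : (n : ℚ) * q ^ 2 = m) :
    ∃ y : ℤ, q = y := by
  have hd : (q.den : ℚ) ≠ 0 := by exact_mod_cast q.den_ne_zero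
  have e0 : q = q.num / q.den := (Rat.num_div_den q).symm
  have h1 : (n : ℤ) * q.num ^ 2 = m * (q.den : ℤ) ^ 2 := by
    have h2 : (n : ℚ) * (q.num : ℚ) ^ 2 = m * (q.den : ℚ) ^ 2 := by
      rw [← h]
      nth_rewrite 2 [e0]
      field_simp
    exact_mod_cast h2
  have h2 : q.den ^ 2 ∣ n * q.num.natAbs ^ 2 := by
    have h3 : ((q.den ^ 2 : ℕ) : ℤ) ∣ (n : ℤ) * q.num ^ 2 := by
      rw [h1]
      push_cast
      exact dvd_mul_left _ _
    have h4 := Int.natAbs_dvd_natAbs.2 h3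
    rw [Int.natAbs_mul, Int.natAbs_pow, Int.natAbs_natCast, Int.natAbs_natCast] at h4
    exact h4
  have h3 : Nat.Coprime (q.den ^ 2) (q.num.natAbs ^ 2) := Nat.Coprime.pow 2 2 q.reduced.symm
  have h4 : q.den ^ 2 ∣ n := h3.dvd_of_dvd_mul_right h2
  have h5 : q.den = 1 := Nat.isUnit_iff.1 (hn q.den (by rw [← pow_two]; exact h4))
  refine ⟨q.num, ?_⟩
  nth_rewrite 1 [e0]
  rw [h5]
  simp

section

variable {K : Type} [Field K] [NumberField K] {n : ℕ} {r : K}

/-- the half-integer -/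
theorem exists_om (hn : Cl n) (h : QK K n r) : ∃ (ω : 𝓞 K) (c : ℤ), ((ω : K) = (1 + r) / 2) ∧
    ω ^ 2 = ω - (c : 𝓞 K) := by
  have h4 : n % 4 = 3 := by
    have := hn.2
    omega
  obtain ⟨c, hc⟩ : ∃ c, c = (n + 1) / 4 := ⟨_, rfl⟩
  have hcn : (4 : K) * c = n + 1 := by
    have : 4 * c = n + 1 := by omega
    exact_mod_cast this
  have h2 : ((1 + r) / 2) ^ 2 = (1 + r) / 2 - (c : K) := by
    have hs := h.sq
    field_simp
    linear_combination hs + hcn
  have h3 : IsIntegral ℤ ((1 + r) / 2) := by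
    refine ⟨Polynomial.X ^ 2 - Polynomial.X + Polynomial.C (c : ℤ), ?_, ?_⟩
    · have : (Polynomial.X ^ 2 - Polynomial.X + Polynomial.C (c : ℤ) : Polynomial ℤ) =
        Polynomial.X ^ 2 + (-Polynomial.X + Polynomial.C (c : ℤ)) := by ring
      rw [this]
      refine Polynomial.monic_X_pow_add ?_
      refine (Polynomial.degree_add_le _ _).trans_lt ?_
      rw [max_lt_iff]
      constructor
      · rw [Polynomial.degree_neg, Polynomial.degree_X]
        norm_num
      · exact Polynomial.degree_C_le.trans_lt (by norm_num)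
    · simp only [Polynomial.eval₂_sub, Polynomial.eval₂_add, Polynomial.eval₂_pow,
        Polynomial.eval₂_X, Polynomial.eval₂_C]
      rw [h2]
      simp
  refine ⟨⟨_, h3⟩, c, rfl, ?_⟩
  apply FaithfulSMul.algebraMap_injective (𝓞 K) K
  rw [map_pow, map_sub, map_intCast, Int.cast_natCast]
  exact h2

/-- the integral basis -/
theorem basis (hn : Cl n) (h : QK K n r) {ω : 𝓞 K} (hω : (ω : K) = (1 + r) / 2) (α : 𝓞 K) :
    ∃ x y : ℤ, α = x + y * ω := by
  have h4 : n % 4 = 3 := by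
    have := hn.2
    omega
  obtain ⟨u, w, huw⟩ := h.gen (α : K)
  obtain ⟨σ⟩ : Nonempty (K →+* ℂ) := inferInstance
  have hσr : σ r ^ 2 = -(n : ℂ) := by rw [← map_pow, h.sq, map_neg, map_natCast]
  have hconj : starRingEnd ℂ (σ r) = -(σ r) := by
    have h0 : (0 : ℝ) < n := by exact_mod_cast Nat.pos_of_ne_zero hn.1.ne_zero
    have hre := congrArg Complex.re hσr
    have him := congrArg Complex.im hσr
    rw [pow_two, Complex.mul_re] at hre
    rw [pow_two, Complex.mul_im] at him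
    simp only [Complex.neg_re, Complex.natCast_re, Complex.neg_im, Complex.natCast_im, neg_zero]
      at hre him
    have h5 : (σ r).re = 0 := by
      by_contra hne
      have h6 : (σ r).im = 0 := by
        have : (σ r).re * (σ r).im = 0 := by linarith
        rcases mul_eq_zero.1 this with h7 | h7
        · exact absurd h7 hne
        · exact h7
      rw [h6] at hre
      nlinarith [mul_self_nonneg (σ r).re]
    apply Complex.ext
    · rw [Complex.conj_re, Complex.neg_re, h5, neg_zero]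
    · rw [Complex.conj_im, Complex.neg_im]
  have hα : σ (α : K) = u + w * σ r := by
    rw [huw, map_add, map_mul, map_ratCast, map_ratCast]
  have hα' : starRingEnd ℂ (σ (α : K)) = u - w * σ r := by
    rw [hα, map_add, map_mul, hconj]
    have e1 : ∀ q : ℚ, starRingEnd ℂ (q : ℂ) = q := fun q => map_ratCast _ q
    rw [e1, e1]
    ring
  have i1 : IsIntegral ℤ (σ (α : K)) := by
    have h5 : IsIntegral ℤ (α : K) := RingOfIntegers.isIntegral_coe α
    exact h5.map σ.toIntAlgHom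
  have i2 : IsIntegral ℤ (starRingEnd ℂ (σ (α : K))) := i1.map (starRingEnd ℂ).toIntAlgHom
  have rat : ∀ q : ℚ, IsIntegral ℤ (q : ℂ) → ∃ m : ℤ, q = m := by
    intro q hq
    have h5 : IsIntegral ℤ q := by
      have h6 : (q : ℂ) = algebraMap ℚ ℂ q := rfl
      rw [h6] at hq
      exact (isIntegral_algebraMap_iff (FaithfulSMul.algebraMap_injective ℚ ℂ)).1 hq
    obtain ⟨m, hm⟩ := IsIntegrallyClosed.isIntegral_iff.1 h5
    exact ⟨m, by rw [← hm]; rfl⟩
  obtain ⟨X, hX⟩ := rat (2 * u) (by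
    have h5 := i1.add i2
    rw [hα', hα] at h5
    have e : ((u : ℂ) + w * σ r + (u - w * σ r)) = ((2 * u : ℚ) : ℂ) := by
      push_cast
      ring
    rwa [e] at h5)
  obtain ⟨N, hN⟩ := rat (u ^ 2 + n * w ^ 2) (by
    have h5 := i1.mul i2
    rw [hα', hα] at h5
    have e : ((u : ℂ) + w * σ r) * (u - w * σ r) = ((u ^ 2 + n * w ^ 2 : ℚ) : ℂ) := by
      push_cast
      linear_combination (-(w : ℂ) ^ 2) * hσr
    rwa [e] at h5)
  obtain ⟨Y, hY⟩ := int_of_sq hn.1 (q := 2 * w) (m := 4 * N - X ^ 2) (by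
    push_cast
    rw [← hN, ← hX]
    ring)
  have hXY : X ^ 2 + n * Y ^ 2 = 4 * N := by
    have h5 : (X : ℚ) ^ 2 + n * (Y : ℚ) ^ 2 = 4 * N := by
      rw [← hX, ← hY, ← hN]
      ring
    exact_mod_cast h5
  have hpar : (X - Y) % 2 = 0 := by
    have h5 : (n : ℤ) % 4 = 3 := by omega
    have h6 : (X ^ 2 + n * Y ^ 2) % 4 = 0 := by
      rw [hXY]
      exact Int.mul_emod_right 4 N
    have key : ∀ a b c : ℤ, a % 2 = 0 ∨ a % 2 = 1 → b % 2 = 0 ∨ b % 2 = 1 → c % 4 = 3 →
        (a ^ 2 + c * b ^ 2) % 4 = 0 → (a - b) % 2 = 0 := by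
      intro a b c ha hb hc hh
      have ea : a ^ 2 % 4 = if a % 2 = 0 then 0 else 1 := by
        rcases ha with ha | ha
        · obtain ⟨k, rfl⟩ : ∃ k, a = 2 * k := ⟨a / 2, by omega⟩
          rw [if_pos ha]
          have : (2 * k) ^ 2 = 4 * k ^ 2 := by ring
          omega
        · obtain ⟨k, rfl⟩ : ∃ k, a = 2 * k + 1 := ⟨a / 2, by omega⟩
          rw [if_neg (by omega)]
          have : (2 * k + 1) ^ 2 = 4 * (k ^ 2 + k) + 1 := by ring
          omega
      have eb : b ^ 2 % 4 = if b % 2 = 0 then 0 else 1 := by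
        rcases hb with ha | ha
        · obtain ⟨k, rfl⟩ : ∃ k, b = 2 * k := ⟨b / 2, by omega⟩
          rw [if_pos ha]
          have : (2 * k) ^ 2 = 4 * k ^ 2 := by ring
          omega
        · obtain ⟨k, rfl⟩ : ∃ k, b = 2 * k + 1 := ⟨b / 2, by omega⟩
          rw [if_neg (by omega)]
          have : (2 * k + 1) ^ 2 = 4 * (k ^ 2 + k) + 1 := by ring
          omega
      have ec : (c * b ^ 2) % 4 = (3 * (b ^ 2 % 4)) % 4 := by
        rw [Int.mul_emod, hc]
      split_ifs at ea eb <;> omega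
    exact key X Y n (by omega) (by omega) h5 h6
  obtain ⟨x, hx⟩ : ∃ x, X - Y = 2 * x := ⟨(X - Y) / 2, by omega⟩
  refine ⟨x, Y, ?_⟩
  apply FaithfulSMul.algebraMap_injective (𝓞 K) K
  rw [map_add, map_mul, map_intCast, map_intCast]
  show (α : K) = x + Y * (ω : K)
  rw [hω, huw]
  have e1 : (2 : K) * (u : K) = X := by
    have := congrArg (Rat.cast : ℚ → K) hX
    push_cast at this
    exact this
  have e2 : (2 : K) * (w : K) = Y := by
    have := congrArg (Rat.cast : ℚ → K) hY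
    push_cast at this
    exact this
  have e3 : (X : K) - Y = 2 * x := by exact_mod_cast congrArg (Int.cast : ℤ → K) hx
  linear_combination (1 / 2 : K) * e1 + (1 / 2 : K) * r * e2 + (1 / 2 : K) * e3

/-- integers in a prime ideal -/
theorem int_mem {v : HeightOneSpectrum (𝓞 K)} {p : ℕ} (hp : p.Prime) (hpv : (p : 𝓞 K) ∈ v.asIdeal)
    {m : ℤ} (hm : (m : 𝓞 K) ∈ v.asIdeal) : (p : ℤ) ∣ m := by
  by_contra hcon
  obtain ⟨a, b, hab⟩ : IsCoprime (p : ℤ) m :=
    (Prime.coprime_iff_not_dvd (Nat.prime_iff_prime_int.1 hp)).2 hcon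
  apply v.isPrime.ne_top
  rw [Ideal.eq_top_iff_one]
  have h6 : (1 : 𝓞 K) = (a : 𝓞 K) * (p : 𝓞 K) + (b : 𝓞 K) * (m : 𝓞 K) := by
    have := congrArg (Int.cast : ℤ → 𝓞 K) hab
    push_cast at this
    exact this.symm
  rw [h6]
  exact add_mem (v.asIdeal.mul_mem_left _ hpv) (v.asIdeal.mul_mem_left _ hm)

theorem r_int (hn : Cl n) (h : QK K n r) {ω : 𝓞 K} (hω : (ω : K) = (1 + r) / 2) :
    (2 * ω - 1) ^ 2 = -(n : 𝓞 K) := by
  apply FaithfulSMul.algebraMap_injective (𝓞 K) K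
  rw [map_pow, map_sub, map_mul, map_neg, map_natCast, map_one, map_ofNat]
  show (2 * (ω : K) - 1) ^ 2 = -(n : K)
  rw [hω, ← h.sq]
  ring

end

/-- **PLV** -/
theorem t_PLV : S_PLV := by
  intro K _ _ n r hn h v p hp hpv hpn
  obtain ⟨ω, c, hω, hω2⟩ := exists_om hn h
  have hr := r_int hn h hω
  have hp0 : (p : 𝓞 K) ≠ 0 := by exact_mod_cast hp.ne_zero
  have hcast : v.valuation K (p : K) = v.intValuation (p : 𝓞 K) := by
    have h2 : ((p : 𝓞 K) : K) = (p : K) := map_natCast (algebraMap (𝓞 K) K) p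
    rw [← h2]
    exact v.valuation_of_algebraMap (K := K) (p : 𝓞 K)
  rw [hcast]
  have hle : v.intValuation (p : 𝓞 K) ≤ exp (-1 : ℤ) := by
    have := (v.intValuation_le_pow_iff_mem (p : 𝓞 K) 1).2 (by rw [pow_one]; exact hpv)
    simpa using this
  refine le_antisymm hle ?_
  by_contra hcon
  have hp2 : (p : 𝓞 K) ∈ v.asIdeal ^ 2 := by
    rw [← v.intValuation_le_pow_iff_mem]
    have h1 : v.intValuation (p : 𝓞 K) < exp (-1 : ℤ) := lt_of_not_ge hcon
    have h0 : v.intValuation (p : 𝓞 K) ≠ 0 := v.intValuation_ne_zero _ hp0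
    rw [← exp_log h0, exp_lt_exp] at h1
    rw [← exp_log h0, exp_le_exp]
    push_cast
    omega
  -- a uniformizer
  obtain ⟨π, hπ, hπ2⟩ : ∃ π ∈ v.asIdeal, π ∉ v.asIdeal ^ 2 := by
    by_contra hall
    push Not at hall
    have h1 : v.asIdeal ≤ v.asIdeal ^ 2 := hall
    have h2 : v.asIdeal ^ 2 < v.asIdeal ^ 1 :=
      Ideal.pow_right_strictAnti v.asIdeal v.ne_bot v.isPrime.ne_top (by norm_num)
    rw [pow_one] at h2
    exact absurd h1 (not_le_of_gt h2)
  obtain ⟨x, y, hxy⟩ := basis hn h hω π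
  have hmulp : ∀ m : ℤ, (m : 𝓞 K) ∈ v.asIdeal → (m : 𝓞 K) ∈ v.asIdeal ^ 2 := by
    intro m hm
    obtain ⟨k, rfl⟩ := int_mem hp hpv hm
    push_cast
    exact Ideal.mul_mem_right _ _ hp2
  have hN : ((x ^ 2 + x * y + y ^ 2 * c : ℤ) : 𝓞 K) = (x + y * (1 - ω)) * π := by
    rw [hxy]
    push_cast
    linear_combination (y : 𝓞 K) ^ 2 * hω2
  have hπ' : ((x : 𝓞 K) + y * (1 - ω)) ∈ v.asIdeal := by
    have h1 : ((x ^ 2 + x * y + y ^ 2 * c : ℤ) : 𝓞 K) ∈ v.asIdeal := by
      rw [hN]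
      exact v.asIdeal.mul_mem_left _ hπ
    have h2 := hmulp _ h1
    rw [hN] at h2
    have := v.isPrime
    rcases (Ideal.IsPrime.mul_mem_pow v.asIdeal h2) with h3 | h3
    · exact h3
    · exact absurd h3 hπ2
  have h1 : (y : 𝓞 K) * (2 * ω - 1) ∈ v.asIdeal := by
    have e : (y : 𝓞 K) * (2 * ω - 1) = π - (x + y * (1 - ω)) := by
      rw [hxy]
      ring
    rw [e]
    exact v.asIdeal.sub_mem hπ hπ'
  have h2 : (2 * ω - 1 : 𝓞 K) ∉ v.asIdeal := by
    intro h3
    have h4 : ((-(n : ℤ) : ℤ) : 𝓞 K) ∈ v.asIdeal := by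
      push_cast
      rw [← hr, pow_two]
      exact v.asIdeal.mul_mem_left _ h3
    have h5 := int_mem hp hpv h4
    rw [dvd_neg] at h5
    exact hpn (by exact_mod_cast h5)
  have hy : (y : 𝓞 K) ∈ v.asIdeal := (v.isPrime.mem_or_mem h1).resolve_right h2
  have hx : (x : 𝓞 K) ∈ v.asIdeal := by
    have e : (x : 𝓞 K) = π - y * ω := by
      rw [hxy]
      ring
    rw [e]
    exact v.asIdeal.sub_mem hπ (v.asIdeal.mul_mem_right _ hy)
  apply hπ2
  rw [hxy]
  exact add_mem (hmulp _ hx) (Ideal.mul_mem_right _ _ (hmulp _ hy))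

end Run7.h741.XK
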