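import Pool.Agent.Run7.h555.XK.Stm
import Pool.Agent.Run7.h741.XK.Qf

/-!
# Project XK: the places of `ℚ(√(-n))`, `n = 3` modulo `4`
-/

set_option autoImplicit false

open NumberField IsDedekindDomain WithZero

namespace Run7.h741.XK.Plc

open Run7.h135.XK (QK)
open Run7.h741.XK (int_of_sq int_mem)
open Pool.Agent.H921R2.TatePole (below deg nm nm_eq)
open Pool.Agent.Y682.XF (kr)
open Run7.h555.XK (QF)

section

variable {K : Type} [Field K] [NumberField K] {n : ℕ} {r : K}

/-- the half-integer -/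
theorem exists_om (hn : Squarefree n) (h4 : n % 4 = 3) (h : QK K n r) : ∃ (ω : 𝓞 K) (c : ℤ), ((ω : K) = (1 + r) / 2) ∧
    ω ^ 2 = ω - (c : 𝓞 K) := by
  obtain ⟨c, hc⟩ : ∃ c, c = (n + 1) / 4 := ⟨_, rfl⟩
  have hcn : (4 : K) * c = n + 1 := by
    have : 4 * c = n + 1 := by omega
    exact_mod_cast this
  have h2 : ((1 + r) / 2) ^ 2 = (1 + r) / 2 - (c : K) := by
    have hs := h.sq
    field_simp
    linear_combination hs + hcn
  have h3 : IsIntegral ℤ ((1 + r) / 2) := by
    refine ⟨Polynomial.X ^ 2 - Polynomial.X + Polynomial.C (c : ℤ), ?_, ?_⟩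
    · have : (Polynomial.X ^ 2 - Polynomial.X + Polynomial.C (c : ℤ) : Polynomial ℤ) =
        Polynomial.X ^ 2 + (-Polynomial.X + Polynomial.C (c : ℤ)) := by ring
      rw [this]
      refine Polynomial.monic_X_pow_add ?_
      refine (Polynomial.degree_add_le _ _).trans_lt ?_
      rw [max_lt_iff]
      constructor
      · rw [Polynomial.degree_neg, Polynomial.degree_X]
        norm_num
      · exact Polynomial.degree_C_le.trans_lt (by norm_num)
    · simp only [Polynomial.eval₂_sub, Polynomial.eval₂_add, Polynomial.eval₂_pow,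
        Polynomial.eval₂_X, Polynomial.eval₂_C]
      rw [h2]
      simp
  refine ⟨⟨_, h3⟩, c, rfl, ?_⟩
  apply FaithfulSMul.algebraMap_injective (𝓞 K) K
  rw [map_pow, map_sub, map_intCast, Int.cast_natCast]
  exact h2

/-- the integral basis -/
theorem basis (hn : Squarefree n) (h4 : n % 4 = 3) (h : QK K n r) {ω : 𝓞 K} (hω : (ω : K) = (1 + r) / 2) (α : 𝓞 K) :
    ∃ x y : ℤ, α = x + y * ω := by
  obtain ⟨u, w, huw⟩ := h.gen (α : K)
  obtain ⟨σ⟩ : Nonempty (K →+* ℂ) := inferInstance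
  have hσr : σ r ^ 2 = -(n : ℂ) := by rw [← map_pow, h.sq, map_neg, map_natCast]
  have hconj : starRingEnd ℂ (σ r) = -(σ r) := by
    have h0 : (0 : ℝ) < n := by exact_mod_cast Nat.pos_of_ne_zero hn.ne_zero
    have hre := congrArg Complex.re hσr
    have him := congrArg Complex.im hσr
    rw [pow_two, Complex.mul_re] at hre
    rw [pow_two, Complex.mul_im] at him
    simp only [Complex.neg_re, Complex.natCast_re, Complex.neg_im, Complex.natCast_im, neg_zero]
      at hre him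
    have h5 : (σ r).re = 0 := by
      by_contra hne
      have h6 : (σ r).im = 0 := by
        have : (σ r).re * (σ r).im = 0 := by linarith
        rcases mul_eq_zero.1 this with h7 | h7
        · exact absurd h7 hne
        · exact h7
      rw [h6] at hre
      nlinarith [mul_self_nonneg (σ r).re]
    apply Complex.ext
    · rw [Complex.conj_re, Complex.neg_re, h5, neg_zero]
    · rw [Complex.conj_im, Complex.neg_im]
  have hα : σ (α : K) = u + w * σ r := by
    rw [huw, map_add, map_mul, map_ratCast, map_ratCast]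
  have hα' : starRingEnd ℂ (σ (α : K)) = u - w * σ r := by
    rw [hα, map_add, map_mul, hconj]
    have e1 : ∀ q : ℚ, starRingEnd ℂ (q : ℂ) = q := fun q => map_ratCast _ q
    rw [e1, e1]
    ring
  have i1 : IsIntegral ℤ (σ (α : K)) := by
    have h5 : IsIntegral ℤ (α : K) := RingOfIntegers.isIntegral_coe α
    exact h5.map σ.toIntAlgHom
  have i2 : IsIntegral ℤ (starRingEnd ℂ (σ (α : K))) := i1.map (starRingEnd ℂ).toIntAlgHom
  have rat : ∀ q : ℚ, IsIntegral ℤ (q : ℂ) → ∃ m : ℤ, q = m := by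
    intro q hq
    have h5 : IsIntegral ℤ q := by
      have h6 : (q : ℂ) = algebraMap ℚ ℂ q := rfl
      rw [h6] at hq
      exact (isIntegral_algebraMap_iff (FaithfulSMul.algebraMap_injective ℚ ℂ)).1 hq
    obtain ⟨m, hm⟩ := IsIntegrallyClosed.isIntegral_iff.1 h5
    exact ⟨m, by rw [← hm]; rfl⟩
  obtain ⟨X, hX⟩ := rat (2 * u) (by
    have h5 := i1.add i2
    rw [hα', hα] at h5
    have e : ((u : ℂ) + w * σ r + (u - w * σ r)) = ((2 * u : ℚ) : ℂ) := by
      push_cast
      ring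
    rwa [e] at h5)
  obtain ⟨N, hN⟩ := rat (u ^ 2 + n * w ^ 2) (by
    have h5 := i1.mul i2
    rw [hα', hα] at h5
    have e : ((u : ℂ) + w * σ r) * (u - w * σ r) = ((u ^ 2 + n * w ^ 2 : ℚ) : ℂ) := by
      push_cast
      linear_combination (-(w : ℂ) ^ 2) * hσr
    rwa [e] at h5)
  obtain ⟨Y, hY⟩ := int_of_sq hn (q := 2 * w) (m := 4 * N - X ^ 2) (by
    push_cast
    rw [← hN, ← hX]
    ring)
  have hXY : X ^ 2 + n * Y ^ 2 = 4 * N := by
    have h5 : (X : ℚ) ^ 2 + n * (Y : ℚ) ^ 2 = 4 * N := by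
      rw [← hX, ← hY, ← hN]
      ring
    exact_mod_cast h5
  have hpar : (X - Y) % 2 = 0 := by
    have h5 : (n : ℤ) % 4 = 3 := by omega
    have h6 : (X ^ 2 + n * Y ^ 2) % 4 = 0 := by
      rw [hXY]
      exact Int.mul_emod_right 4 N
    have key : ∀ a b c : ℤ, a % 2 = 0 ∨ a % 2 = 1 → b % 2 = 0 ∨ b % 2 = 1 → c % 4 = 3 →
        (a ^ 2 + c * b ^ 2) % 4 = 0 → (a - b) % 2 = 0 := by
      intro a b c ha hb hc hh
      have ea : a ^ 2 % 4 = if a % 2 = 0 then 0 else 1 := by
        rcases ha with ha | ha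
        · obtain ⟨k, rfl⟩ : ∃ k, a = 2 * k := ⟨a / 2, by omega⟩
          rw [if_pos ha]
          have : (2 * k) ^ 2 = 4 * k ^ 2 := by ring
          omega
        · obtain ⟨k, rfl⟩ : ∃ k, a = 2 * k + 1 := ⟨a / 2, by omega⟩
          rw [if_neg (by omega)]
          have : (2 * k + 1) ^ 2 = 4 * (k ^ 2 + k) + 1 := by ring
          omega
      have eb : b ^ 2 % 4 = if b % 2 = 0 then 0 else 1 := by
        rcases hb with ha | ha
        · obtain ⟨k, rfl⟩ : ∃ k, b = 2 * k := ⟨b / 2, by omega⟩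
          rw [if_pos ha]
          have : (2 * k) ^ 2 = 4 * k ^ 2 := by ring
          omega
        · obtain ⟨k, rfl⟩ : ∃ k, b = 2 * k + 1 := ⟨b / 2, by omega⟩
          rw [if_neg (by omega)]
          have : (2 * k + 1) ^ 2 = 4 * (k ^ 2 + k) + 1 := by ring
          omega
      have ec : (c * b ^ 2) % 4 = (3 * (b ^ 2 % 4)) % 4 := by
        rw [Int.mul_emod, hc]
      split_ifs at ea eb <;> omega
    exact key X Y n (by omega) (by omega) h5 h6
  obtain ⟨x, hx⟩ : ∃ x, X - Y = 2 * x := ⟨(X - Y) / 2, by omega⟩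
  refine ⟨x, Y, ?_⟩
  apply FaithfulSMul.algebraMap_injective (𝓞 K) K
  rw [map_add, map_mul, map_intCast, map_intCast]
  show (α : K) = x + Y * (ω : K)
  rw [hω, huw]
  have e1 : (2 : K) * (u : K) = X := by
    have := congrArg (Rat.cast : ℚ → K) hX
    push_cast at this
    exact this
  have e2 : (2 : K) * (w : K) = Y := by
    have := congrArg (Rat.cast : ℚ → K) hY
    push_cast at this
    exact this
  have e3 : (X : K) - Y = 2 * x := by exact_mod_cast congrArg (Int.cast : ℤ → K) hx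
  linear_combination (1 / 2 : K) * e1 + (1 / 2 : K) * r * e2 + (1 / 2 : K) * e3

theorem r_int (h : QK K n r) {ω : 𝓞 K} (hω : (ω : K) = (1 + r) / 2) :
    (2 * ω - 1) ^ 2 = -(n : 𝓞 K) := by
  apply FaithfulSMul.algebraMap_injective (𝓞 K) K
  rw [map_pow, map_sub, map_mul, map_neg, map_natCast, map_one, map_ofNat]
  show (2 * (ω : K) - 1) ^ 2 = -(n : K)
  rw [hω, ← h.sq]
  ring


/-- the ramification above the primes not dividing `n` -/
theorem plv (hn : Squarefree n) (h4 : n % 4 = 3) (h : QK K n r) (v : HeightOneSpectrum (𝓞 K))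
    (p : ℕ) (hp : p.Prime) (hpv : (p : 𝓞 K) ∈ v.asIdeal) (hpn : ¬ p ∣ n) :
    v.valuation K (p : K) = exp (-1 : ℤ) := by
  obtain ⟨ω, c, hω, hω2⟩ := exists_om hn h4 h
  have hr := r_int h hω
  have hp0 : (p : 𝓞 K) ≠ 0 := by exact_mod_cast hp.ne_zero
  have hcast : v.valuation K (p : K) = v.intValuation (p : 𝓞 K) := by
    have h2 : ((p : 𝓞 K) : K) = (p : K) := map_natCast (algebraMap (𝓞 K) K) p
    rw [← h2]
    exact v.valuation_of_algebraMap (K := K) (p : 𝓞 K)
  rw [hcast]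
  have hle : v.intValuation (p : 𝓞 K) ≤ exp (-1 : ℤ) := by
    have := (v.intValuation_le_pow_iff_mem (p : 𝓞 K) 1).2 (by rw [pow_one]; exact hpv)
    simpa using this
  refine le_antisymm hle ?_
  by_contra hcon
  have hp2 : (p : 𝓞 K) ∈ v.asIdeal ^ 2 := by
    rw [← v.intValuation_le_pow_iff_mem]
    have h1 : v.intValuation (p : 𝓞 K) < exp (-1 : ℤ) := lt_of_not_ge hcon
    have h0 : v.intValuation (p : 𝓞 K) ≠ 0 := v.intValuation_ne_zero _ hp0
    rw [← exp_log h0, exp_lt_exp] at h1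
    rw [← exp_log h0, exp_le_exp]
    push_cast
    omega
  -- a uniformizer
  obtain ⟨π, hπ, hπ2⟩ : ∃ π ∈ v.asIdeal, π ∉ v.asIdeal ^ 2 := by
    by_contra hall
    push Not at hall
    have h1 : v.asIdeal ≤ v.asIdeal ^ 2 := hall
    have h2 : v.asIdeal ^ 2 < v.asIdeal ^ 1 :=
      Ideal.pow_right_strictAnti v.asIdeal v.ne_bot v.isPrime.ne_top (by norm_num)
    rw [pow_one] at h2
    exact absurd h1 (not_le_of_gt h2)
  obtain ⟨x, y, hxy⟩ := basis hn h4 h hω π
  have hmulp : ∀ m : ℤ, (m : 𝓞 K) ∈ v.asIdeal → (m : 𝓞 K) ∈ v.asIdeal ^ 2 := by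
    intro m hm
    obtain ⟨k, rfl⟩ := int_mem hp hpv hm
    push_cast
    exact Ideal.mul_mem_right _ _ hp2
  have hN : ((x ^ 2 + x * y + y ^ 2 * c : ℤ) : 𝓞 K) = (x + y * (1 - ω)) * π := by
    rw [hxy]
    push_cast
    linear_combination (y : 𝓞 K) ^ 2 * hω2
  have hπ' : ((x : 𝓞 K) + y * (1 - ω)) ∈ v.asIdeal := by
    have h1 : ((x ^ 2 + x * y + y ^ 2 * c : ℤ) : 𝓞 K) ∈ v.asIdeal := by
      rw [hN]
      exact v.asIdeal.mul_mem_left _ hπ
    have h2 := hmulp _ h1
    rw [hN] at h2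
    have := v.isPrime
    rcases (Ideal.IsPrime.mul_mem_pow v.asIdeal h2) with h3 | h3
    · exact h3
    · exact absurd h3 hπ2
  have h1 : (y : 𝓞 K) * (2 * ω - 1) ∈ v.asIdeal := by
    have e : (y : 𝓞 K) * (2 * ω - 1) = π - (x + y * (1 - ω)) := by
      rw [hxy]
      ring
    rw [e]
    exact v.asIdeal.sub_mem hπ hπ'
  have h2 : (2 * ω - 1 : 𝓞 K) ∉ v.asIdeal := by
    intro h3
    have h4 : ((-(n : ℤ) : ℤ) : 𝓞 K) ∈ v.asIdeal := by
      push_cast
      rw [← hr, pow_two]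
      exact v.asIdeal.mul_mem_left _ h3
    have h5 := int_mem hp hpv h4
    rw [dvd_neg] at h5
    exact hpn (by exact_mod_cast h5)
  have hy : (y : 𝓞 K) ∈ v.asIdeal := (v.isPrime.mem_or_mem h1).resolve_right h2
  have hx : (x : 𝓞 K) ∈ v.asIdeal := by
    have e : (x : 𝓞 K) = π - y * ω := by
      rw [hxy]
      ring
    rw [e]
    exact v.asIdeal.sub_mem hπ (v.asIdeal.mul_mem_right _ hy)
  apply hπ2
  rw [hxy]
  exact add_mem (hmulp _ hx) (Ideal.mul_mem_right _ _ (hmulp _ hy))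


/-- generators -/
theorem gen_of (h0 : n ≠ 0) (hK : Module.finrank ℚ K = 2) (hr : r ^ 2 = -(n : K)) : QK K n r := by
  have hli : LinearIndependent ℚ ![(1 : K), r] := by
    rw [LinearIndependent.pair_iff]
    intro s t hst
    have h1 : (s : K) + t * r = 0 := by
      rw [← hst, Rat.smul_def, Rat.smul_def, mul_one]
    have h2 : ((s ^ 2 + n * t ^ 2 : ℚ) : K) = 0 := by
      push_cast
      linear_combination ((s : K) - t * r) * h1 + (t : K) ^ 2 * hr
    have h3 : s ^ 2 + n * t ^ 2 = 0 := by exact_mod_cast h2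
    have hn0 : (0 : ℚ) < n := by exact_mod_cast Nat.pos_of_ne_zero h0
    have h5 : s ^ 2 = 0 := by nlinarith [sq_nonneg s, sq_nonneg t, mul_nonneg hn0.le (sq_nonneg t)]
    have h6 : t ^ 2 = 0 := by
      have : n * t ^ 2 = 0 := by linarith
      rcases mul_eq_zero.1 this with h7 | h7
      · exact absurd h7 hn0.ne'
      · exact h7
    exact ⟨pow_eq_zero_iff (two_ne_zero) |>.1 h5, pow_eq_zero_iff (two_ne_zero) |>.1 h6⟩
  have htop := hli.span_eq_top_of_card_eq_finrank' (by rw [hK]; rfl)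
  refine ⟨hr, fun x => ?_⟩
  have hx : x ∈ Submodule.span ℚ (Set.range ![(1 : K), r]) := by
    rw [htop]
    exact Submodule.mem_top
  rw [Matrix.range_cons, Matrix.range_cons, Matrix.range_empty, Set.union_empty,
    Set.singleton_union] at hx
  obtain ⟨u, w, huw⟩ := Submodule.mem_span_pair.1 hx
  refine ⟨u, w, ?_⟩
  rw [← huw, Rat.smul_def, Rat.smul_def, mul_one]

end

end Run7.h741.XK.Plc
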