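import Pool.Agent.Run7.h741.XK.U23
import Pool.Agent.Y682.Theta

/-!
# Project XK: the maps from `ℚ_p`, squares at five and at infinity
-/

set_option autoImplicit false

open NumberField IsDedekindDomain

namespace Run7.h741.XK

open Run7.h135.XK

/-- **PLU** -/
theorem t_PLU : S_PLU := fun _ _ _ _ _ _ h => ⟨Pool.Agent.Y682.pth h⟩

theorem r_ne {K : Type} [Field K] [NumberField K] {n : ℕ} {r : K} (hn : Cl n) (h : QK K n r) :
    r ≠ 0 := by
  rintro rfl
  have h1 := h.sq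
  rw [zero_pow two_ne_zero, zero_eq_neg, Nat.cast_eq_zero] at h1
  exact hn.1.ne_zero h1

/-- **PL5** -/
theorem t_PL5 (hPLU : S_PLU) : S_PL5 := by
  intro K _ _ n r hn h v hv m hm
  have h5 : Fact (Nat.Prime 5) := ⟨Nat.prime_five⟩
  obtain ⟨θ⟩ := hPLU K v 5 (by exact_mod_cast hv)
  have hn5 : n % 5 = 2 ∨ n % 5 = 3 := by
    have := hn.2
    omega
  have hsq : ∀ c : ℤ, (c % 5 = 1 ∨ c % 5 = 4) → IsSquare (c : ℚ_[5]) := by
    intro c hc
    refine padic_sq (by norm_num) (by push_cast; omega) ?_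
    rcases hc with hc | hc
    · have e : ((c : ℤ) : ZMod 5) = ((1 : ℤ) : ZMod 5) := (ZMod.intCast_eq_intCast_iff' _ _ 5).2
        (by push_cast; omega)
      rw [e]
      exact ⟨1, by norm_num⟩
    · have e : ((c : ℤ) : ZMod 5) = ((4 : ℤ) : ZMod 5) := (ZMod.intCast_eq_intCast_iff' _ _ 5).2
        (by push_cast; omega)
      rw [e]
      exact ⟨2, by norm_num⟩
  have hm5 : m % 5 = 1 ∨ m % 5 = 2 ∨ m % 5 = 3 ∨ m % 5 = 4 := by omega
  by_cases h14 : m % 5 = 1 ∨ m % 5 = 4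
  · obtain ⟨s, hs⟩ := hsq m h14
    have h1 := congrArg θ hs
    rw [map_intCast, map_mul] at h1
    exact ⟨θ s, h1⟩
  · have h2 : (-(n : ℤ) * m) % 5 = 1 ∨ (-(n : ℤ) * m) % 5 = 4 := by
      have e1 : (-(n : ℤ)) % 5 = 2 ∨ (-(n : ℤ)) % 5 = 3 := by omega
      have e2 : m % 5 = 2 ∨ m % 5 = 3 := by omega
      rcases e1 with e1 | e1 <;> rcases e2 with e2 | e2 <;> rw [Int.mul_emod, e1, e2] <;> norm_num
    obtain ⟨s, hs⟩ := hsq _ h2
    have h1 := congrArg θ hs
    rw [map_intCast, map_mul] at h1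
    have hr : (algebraMap K (v.adicCompletion K) r) ^ 2 = -(n : v.adicCompletion K) := by
      rw [← map_pow, h.sq, map_neg, map_natCast]
    have hr0 : algebraMap K (v.adicCompletion K) r ≠ 0 := (map_ne_zero _).2 (r_ne hn h)
    refine ⟨θ s / algebraMap K (v.adicCompletion K) r, ?_⟩
    push_cast at h1
    field_simp
    rw [hr]
    linear_combination h1

/-- **PLC** -/
theorem t_PLC : S_PLC := by
  intro K _ _ n r hn h v z
  have hc : v.IsComplex := by
    rw [← InfinitePlace.not_isReal_iff_isComplex]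
    intro hr
    obtain ⟨φ, hφ⟩ : ∃ φ : K →+* ℝ, True := ⟨InfinitePlace.embedding_of_isReal hr, trivial⟩
    have h1 : (φ r) ^ 2 = -(n : ℝ) := by rw [← map_pow, h.sq, map_neg, map_natCast]
    have h2 : (0 : ℝ) < n := by exact_mod_cast Nat.pos_of_ne_zero hn.1.ne_zero
    nlinarith [sq_nonneg (φ r)]
  obtain ⟨w, hw⟩ := IsAlgClosed.exists_pow_nat_eq
    (InfinitePlace.Completion.ringEquivComplexOfIsComplex hc z) (n := 2) (by norm_num)
  refine ⟨(InfinitePlace.Completion.ringEquivComplexOfIsComplex hc).symm w, ?_⟩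
  rw [← map_mul, ← pow_two, hw, RingEquiv.symm_apply_apply]

end Run7.h741.XK
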