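import Pool.Agent.Run7.h135.XK.Stm

/-!
# Project XK: explicit local points at two and three
-/

set_option autoImplicit false

namespace Run7.h741.XK

open Run7.h135.XK

section

open Polynomial

theorem padic_sq {p : ℕ} [hp : Fact p.Prime] (hp2 : p ≠ 2) {n : ℤ} (hn : ¬ (p : ℤ) ∣ n)
    (h : IsSquare (n : ZMod p)) : IsSquare (n : ℚ_[p]) := by
  obtain ⟨a, ha⟩ := h
  obtain ⟨s, hs⟩ := ZMod.intCast_surjective a
  have h1 : (p : ℤ) ∣ s ^ 2 - n := by
    rw [← ZMod.intCast_zmod_eq_zero_iff_dvd]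
    push_cast
    rw [ha, hs]
    ring
  have h2 : ¬ (p : ℤ) ∣ 2 * s := by
    intro h2
    have hpi : Prime (p : ℤ) := Nat.prime_iff_prime_int.1 hp.out
    rcases hpi.dvd_or_dvd h2 with h3 | h3
    · have h5 : p ∣ 2 := by exact_mod_cast h3
      exact hp2 ((Nat.prime_dvd_prime_iff_eq hp.out Nat.prime_two).1 h5)
    · apply hn
      have := dvd_sub ((dvd_pow h3 two_ne_zero : (p : ℤ) ∣ s ^ 2)) h1
      simpa using this
  have e1 : ∀ w : ℤ_[p], (aeval w) (X ^ 2 - C (n : ℤ_[p]) : ℤ_[p][X]) = w ^ 2 - n := by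
    intro w; simp
  have e2 : ∀ w : ℤ_[p], (aeval w) (derivative (X ^ 2 - C (n : ℤ_[p]) : ℤ_[p][X])) = 2 * w := by
    intro w; simp; norm_num
  obtain ⟨z, hz, -⟩ := hensels_lemma (p := p) (R := ℤ_[p]) (F := X ^ 2 - C (n : ℤ_[p]))
    (a := (s : ℤ_[p])) (by
      rw [e1, e2]
      have h3 : ‖((s ^ 2 - n : ℤ) : ℤ_[p])‖ < 1 := by
        rw [PadicInt.norm_intCast_lt_one_iff]
        exact h1
      have h4 : ‖((2 * s : ℤ) : ℤ_[p])‖ = 1 := by
        have h5 : ¬ ‖((2 * s : ℤ) : ℤ_[p])‖ < 1 := by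
          rw [PadicInt.norm_intCast_lt_one_iff]
          exact h2
        exact le_antisymm (PadicInt.norm_le_one _) (not_lt.1 h5)
      push_cast at h3 h4
      rw [h4]
      simpa using h3)
  rw [e1] at hz
  have h6 := congrArg (fun w : ℤ_[p] => (w : ℚ_[p])) (sub_eq_zero.1 hz)
  push_cast at h6
  exact ⟨z, by rw [← h6]; ring⟩

theorem padic_sq2 {n : ℤ} (hn : n % 8 = 1) : IsSquare (n : ℚ_[2]) := by
  have e1 : ∀ w : ℤ_[2], (aeval w) (X ^ 2 - C (n : ℤ_[2]) : ℤ_[2][X]) = w ^ 2 - n := by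
    intro w; simp
  have e2 : ∀ w : ℤ_[2], (aeval w) (derivative (X ^ 2 - C (n : ℤ_[2]) : ℤ_[2][X])) = 2 * w := by
    intro w; simp; norm_num
  obtain ⟨z, hz, -⟩ := hensels_lemma (p := 2) (R := ℤ_[2]) (F := X ^ 2 - C (n : ℤ_[2]))
    (a := 1) (by
      rw [e1, e2]
      have h4 : ‖(2 : ℤ_[2])‖ = 2⁻¹ := by
        have := PadicInt.norm_p (p := 2)
        exact_mod_cast this
      have h3 : ‖((1 - n : ℤ) : ℤ_[2])‖ ≤ ((2 : ℕ) : ℝ) ^ (-(3 : ℕ) : ℤ) := by
        rw [PadicInt.norm_int_le_pow_iff_dvd]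
        push_cast
        omega
      push_cast at h3
      rw [one_pow, mul_one, h4]
      refine lt_of_le_of_lt h3 ?_
      norm_num)
  rw [e1] at hz
  have h6 := congrArg (fun w : ℤ_[2] => (w : ℚ_[2])) (sub_eq_zero.1 hz)
  push_cast at h6
  exact ⟨z, by rw [← h6]; ring⟩

end

/-- quotients that are squares at two -/
theorem quo2 {c d : ℤ} (h : c * d % 8 = 1) : ∃ u : ℚ_[2], (c : ℚ_[2]) = d * u ^ 2 := by
  obtain ⟨s, hs⟩ := padic_sq2 h
  have hd : d ≠ 0 := by
    rintro rfl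
    norm_num at h
  have hd' : (d : ℚ_[2]) ≠ 0 := by exact_mod_cast hd
  push_cast at hs
  refine ⟨s / d, ?_⟩
  field_simp
  linear_combination hs

theorem quo3 [Fact (Nat.Prime 3)] {c d : ℤ} (h : c * d % 3 = 1) :
    ∃ u : ℚ_[3], (c : ℚ_[3]) = d * u ^ 2 := by
  have hsq : IsSquare ((c * d : ℤ) : ZMod 3) := by
    have h1 : ((c * d : ℤ) : ZMod 3) = ((1 : ℤ) : ZMod 3) :=
      (ZMod.intCast_eq_intCast_iff _ _ 3).2 (by
        show (c * d) % ((3 : ℕ) : ℤ) = 1 % ((3 : ℕ) : ℤ)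
        push_cast
        omega)
    rw [h1]
    exact ⟨1, by norm_num⟩
  obtain ⟨s, hs⟩ := padic_sq (p := 3) (by norm_num) (by push_cast; omega) hsq
  have hd : d ≠ 0 := by
    rintro rfl
    norm_num at h
  have hd' : (d : ℚ_[3]) ≠ 0 := by exact_mod_cast hd
  push_cast at hs
  refine ⟨s / d, ?_⟩
  field_simp
  linear_combination hs

theorem im2 {a b : ℤ} (ha : a % 4 = 1) (hb : b % 2 = 1) : Im ℚ_[2] 0 9 25 (a : ℚ_[2]) (b : ℚ_[2]) := by
  have ha8 : a % 8 = 1 ∨ a % 8 = 5 := by omega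
  have hb8 : b % 8 = 1 ∨ b % 8 = 3 ∨ b % 8 = 5 ∨ b % 8 = 7 := by omega
  rcases ha8 with ha8 | ha8
  · rcases hb8 with hb8 | hb8 | hb8 | hb8
    · exact Or.inl ⟨padic_sq2 ha8, padic_sq2 hb8⟩
    · -- b = 3: x = 900
      obtain ⟨u, hu⟩ := quo2 (c := 900 / 4) (d := a) (by norm_num; omega)
      obtain ⟨v, hv⟩ := quo2 (c := 891) (d := b) (by omega)
      obtain ⟨w, hw⟩ := quo2 (c := 875) (d := a * b) (by
        rw [Int.mul_emod, Int.mul_emod a b, ha8, hb8]; norm_num)
      right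
      refine ⟨900, 2 * u, v, w, ?_, ?_, ?_⟩
      · norm_num at hu ⊢
        linear_combination 4 * hu
      · push_cast at hv
        linear_combination hv
      · push_cast at hw
        linear_combination hw
    · -- b = 5: x = 1 / 4
      obtain ⟨u, hu⟩ := quo2 (c := 1) (d := a) (by omega)
      obtain ⟨v, hv⟩ := quo2 (c := -35) (d := b) (by omega)
      obtain ⟨w, hw⟩ := quo2 (c := -99) (d := a * b) (by
        rw [Int.mul_emod, Int.mul_emod a b, ha8, hb8]; norm_num)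
      right
      refine ⟨1 / 4, u / 2, v / 2, w / 2, ?_, ?_, ?_⟩
      · push_cast at hu
        linear_combination (1 / 4 : ℚ_[2]) * hu
      · push_cast at hv
        linear_combination (1 / 4 : ℚ_[2]) * hv
      · push_cast at hw
        linear_combination (1 / 4 : ℚ_[2]) * hw
    · -- b = 7: x = 0
      obtain ⟨v, hv⟩ := quo2 (c := -9) (d := b) (by omega)
      obtain ⟨w, hw⟩ := quo2 (c := -25) (d := a * b) (by
        rw [Int.mul_emod, Int.mul_emod a b, ha8, hb8]; norm_num)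
      right
      refine ⟨0, 0, v, w, ?_, ?_, ?_⟩
      · ring
      · push_cast at hv
        linear_combination hv
      · push_cast at hw
        linear_combination hw
  · -- a = 5: x = 9 + 4 b
    have hbb : b * b % 8 = 1 := by
      rcases hb8 with h | h | h | h <;> rw [Int.mul_emod, h] <;> norm_num
    obtain ⟨u, hu⟩ := quo2 (c := 9 + 4 * b) (d := a) (by
      rw [Int.mul_emod, ha8]
      have : (9 + 4 * b) % 8 = 5 := by omega
      rw [this]
      norm_num)
    obtain ⟨w, hw⟩ := quo2 (c := b - 4) (d := a * b) (by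
      have e : (b - 4) * (a * b) = a * (b * b - 4 * b) := by ring
      have h1 : (b * b - 4 * b) % 8 = 5 := by omega
      rw [e, Int.mul_emod, h1, ha8]
      norm_num)
    right
    refine ⟨9 + 4 * b, u, 2, 2 * w, ?_, ?_, ?_⟩
    · push_cast at hu
      linear_combination hu
    · ring
    · push_cast at hw
      linear_combination 4 * hw

theorem im3 [Fact (Nat.Prime 3)] {a b : ℤ} (ha : ¬ (3 : ℤ) ∣ a) (hb : ¬ (3 : ℤ) ∣ b) :
    Im ℚ_[3] 0 9 25 (a : ℚ_[3]) (b : ℚ_[3]) := by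
  have ha3 : a % 3 = 1 ∨ a % 3 = 2 := by omega
  have hb3 : b % 3 = 1 ∨ b % 3 = 2 := by omega
  have sq : ∀ c : ℤ, c % 3 = 1 → IsSquare (c : ℚ_[3]) := by
    intro c hc
    obtain ⟨u, hu⟩ := quo3 (c := c) (d := 1) (by omega)
    exact ⟨u, by push_cast at hu; linear_combination hu⟩
  rcases ha3 with ha3 | ha3 <;> rcases hb3 with hb3 | hb3
  · exact Or.inl ⟨sq a ha3, sq b hb3⟩
  · obtain ⟨v, hv⟩ := quo3 (c := -1) (d := b) (by omega)
    obtain ⟨w, hw⟩ := quo3 (c := -25) (d := a * b) (by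
      rw [Int.mul_emod, Int.mul_emod a b, ha3, hb3]; norm_num)
    right
    refine ⟨0, 0, 3 * v, w, ?_, ?_, ?_⟩
    · ring
    · push_cast at hv
      linear_combination 9 * hv
    · push_cast at hw
      linear_combination hw
  · obtain ⟨u, hu⟩ := quo3 (c := 5) (d := a) (by omega)
    obtain ⟨v, hv⟩ := quo3 (c := 4) (d := b) (by omega)
    obtain ⟨w, hw⟩ := quo3 (c := 20) (d := a * b) (by
      rw [Int.mul_emod, Int.mul_emod a b, ha3, hb3]; norm_num)
    right
    refine ⟨45, 3 * u, 3 * v, w, ?_, ?_, ?_⟩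
    · push_cast at hu
      linear_combination 9 * hu
    · push_cast at hv
      linear_combination 9 * hv
    · push_cast at hw
      linear_combination hw
  · obtain ⟨u, hu⟩ := quo3 (c := 5) (d := a) (by omega)
    obtain ⟨v, hv⟩ := quo3 (c := -4) (d := b) (by omega)
    obtain ⟨w, hw⟩ := quo3 (c := -20) (d := a * b) (by
      rw [Int.mul_emod, Int.mul_emod a b, ha3, hb3]; norm_num)
    right
    refine ⟨5, u, v, w, ?_, ?_, ?_⟩
    · push_cast at hu
      linear_combination hu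
    · push_cast at hv
      linear_combination hv
    · push_cast at hw
      linear_combination hw

/-- **U23** -/
theorem t_U23 : S_U23 := ⟨fun _ _ ha hb => im2 ha hb, fun _ _ ha hb => im3 ha hb⟩

end Run7.h741.XK
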