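import Pool.Agent.Run7.h741.XK.Plc

/-!
# Project XK, analytic side: piece PLC (the places of `ℚ(√(-n))`)
-/

set_option autoImplicit false

open NumberField IsDedekindDomain WithZero

namespace Run7.h741.XK.Plc

open Run7.h135.XK (QK)
open Run7.h741.XK (int_mem)
open Pool.Agent.H921R2.TatePole (below deg nm nm_eq)
open Pool.Agent.Y682.XF (kr)
open Run7.h555.XK (QF)

/-- the data: `𝓞 K = ℤ[ω]` with `ω² = ω - c`, `4 c = n + 1` -/
structure Dat (K : Type) [Field K] [NumberField K] (n : ℕ) (c : ℤ) (ω : 𝓞 K) : Prop where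
  rk : Module.finrank ℚ K = 2
  c4 : 4 * c = n + 1
  n4 : n % 4 = 3
  rel : ω ^ 2 = ω - (c : 𝓞 K)
  bas : ∀ α : 𝓞 K, ∃ x y : ℤ, α = x + y * ω
  ind : ∀ x y : ℤ, (x : 𝓞 K) + y * ω = 0 → x = 0 ∧ y = 0

theorem dat {K : Type} [Field K] [NumberField K] {n : ℕ} (hK : QF K n) (hn : Squarefree n)
    (h4 : n % 4 = 3) : ∃ (c : ℤ) (ω : 𝓞 K), Dat K n c ω := by
  obtain ⟨r, hr⟩ := hK.sq
  have h := gen_of hn.ne_zero hK.two hr
  obtain ⟨ω, c, hω, hω2⟩ := exists_om hn h4 h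
  refine ⟨c, ω, hK.two, ?_, h4, hω2, basis hn h4 h hω, fun x y hxy => ?_⟩
  · have h1 := congrArg (algebraMap (𝓞 K) K) hω2
    rw [map_pow, map_sub, map_intCast] at h1
    have h2 : (ω : K) ^ 2 = (ω : K) - c := h1
    rw [hω] at h2
    have h3 : ((4 * c : ℤ) : K) = ((n + 1 : ℤ) : K) := by
      push_cast
      linear_combination (4 : K) * h2 - hr
    exact_mod_cast h3
  · have h1 : (x : K) + y * ((1 + r) / 2) = 0 := by
      rw [← hω]
      have := congrArg (algebraMap (𝓞 K) K) hxy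
      rw [map_add, map_mul, map_intCast, map_intCast, map_zero] at this
      exact this
    have h2 : (((2 * x + y) ^ 2 + n * y ^ 2 : ℤ) : K) = 0 := by
      push_cast
      linear_combination (2 * x + y - y * r) * 2 * h1 + (y : K) ^ 2 * hr
    have h3 : (2 * x + y) ^ 2 + n * y ^ 2 = 0 := by exact_mod_cast h2
    have hn0 : (0 : ℤ) < n := by exact_mod_cast Nat.pos_of_ne_zero hn.ne_zero
    have h5 : (n : ℤ) * y ^ 2 = 0 := by
      nlinarith [sq_nonneg (2 * x + y), mul_nonneg hn0.le (sq_nonneg y)]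
    have h6 : y = 0 := by
      rcases mul_eq_zero.1 h5 with h7 | h7
      · omega
      · exact pow_eq_zero_iff (two_ne_zero) |>.1 h7
    subst h6
    have h7 : (2 * x) ^ 2 = 0 := by linarith
    have h8 : 2 * x = 0 := pow_eq_zero_iff (two_ne_zero) |>.1 h7
    exact ⟨by omega, rfl⟩

section

variable {K : Type} [Field K] [NumberField K] {n : ℕ} {c : ℤ} {ω : 𝓞 K}

theorem below_eq {p : ℕ} (hp : p.Prime) {v : HeightOneSpectrum (𝓞 K)}
    (hv : (p : 𝓞 K) ∈ v.asIdeal) : (below v : ℕ) = p := by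
  have h1 : (((below v : ℕ) : ℤ) : 𝓞 K) ∈ v.asIdeal := by
    rw [Int.cast_natCast]
    exact (nm_eq v).2.2
  have h2 := int_mem hp hv h1
  have h3 : p ∣ (below v : ℕ) := by exact_mod_cast h2
  exact ((Nat.prime_dvd_prime_iff_eq hp (below v).2).1 h3).symm

theorem memb {p : ℕ} (hp : p.Prime) {v : HeightOneSpectrum (𝓞 K)}
    (hv : (p : 𝓞 K) ∈ v.asIdeal) {a : ℤ} (ha : ω - (a : 𝓞 K) ∈ v.asIdeal) (x y : ℤ) :
    (x : 𝓞 K) + y * ω ∈ v.asIdeal ↔ (p : ℤ) ∣ x + y * a := by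
  have e : (x : 𝓞 K) + y * ω = ((x + y * a : ℤ) : 𝓞 K) + y * (ω - (a : 𝓞 K)) := by
    push_cast
    ring
  have h1 : (y : 𝓞 K) * (ω - (a : 𝓞 K)) ∈ v.asIdeal := v.asIdeal.mul_mem_left _ ha
  constructor
  · intro h
    rw [e] at h
    exact int_mem hp hv ((Submodule.add_mem_iff_left _ h1).1 h)
  · rintro ⟨k, hk⟩
    rw [e, hk]
    refine add_mem ?_ h1
    push_cast
    exact v.asIdeal.mul_mem_right _ hv

theorem uniq (D : Dat K n c ω) {p : ℕ} (hp : p.Prime) {v v' : HeightOneSpectrum (𝓞 K)}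
    (hv : (p : 𝓞 K) ∈ v.asIdeal) (hv' : (p : 𝓞 K) ∈ v'.asIdeal) {a a' : ℤ}
    (haa : (p : ℤ) ∣ a - a') (ha : ω - (a : 𝓞 K) ∈ v.asIdeal)
    (ha' : ω - (a' : 𝓞 K) ∈ v'.asIdeal) : v = v' := by
  refine HeightOneSpectrum.ext (Ideal.ext fun α => ?_)
  obtain ⟨x, y, rfl⟩ := D.bas α
  rw [memb hp hv ha, memb hp hv' ha']
  have e : x + y * a = (x + y * a') + y * (a - a') := by ring
  rw [e]
  exact (dvd_add_left (dvd_mul_of_dvd_right haa _))

theorem deg_one (D : Dat K n c ω) {p : ℕ} (hp : p.Prime) {v : HeightOneSpectrum (𝓞 K)}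
    (hv : (p : 𝓞 K) ∈ v.asIdeal) {a : ℤ} (ha : ω - (a : 𝓞 K) ∈ v.asIdeal) : deg v = 1 := by
  have hp0 : (p : ℤ) ≠ 0 := by exact_mod_cast hp.ne_zero
  have hsurj : Function.Surjective (fun i : Fin p =>
      (Ideal.Quotient.mk v.asIdeal ((i : ℕ) : 𝓞 K))) := by
    intro q
    obtain ⟨α, rfl⟩ := Ideal.Quotient.mk_surjective q
    obtain ⟨x, y, rfl⟩ := D.bas α
    have h1 : 0 ≤ (x + y * a) % p := Int.emod_nonneg _ hp0
    have h2 : (x + y * a) % p < p := Int.emod_lt_of_pos _ (by exact_mod_cast hp.pos)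
    refine ⟨⟨((x + y * a) % p).toNat, by omega⟩, ?_⟩
    rw [Ideal.Quotient.mk_eq_mk_iff_sub_mem]
    have e1 : (((((x + y * a) % p).toNat : ℕ)) : 𝓞 K) = (((x + y * a) % p : ℤ) : 𝓞 K) := by
      rw [← Int.cast_natCast, Int.toNat_of_nonneg h1]
    have e2 : ((((x + y * a) % p).toNat : ℕ) : 𝓞 K) - ((x : 𝓞 K) + y * ω) =
        (((x + y * a) % p - x : ℤ) : 𝓞 K) + ((-y : ℤ) : 𝓞 K) * ω := by
      rw [e1]
      push_cast
      ring
    show ((((x + y * a) % p).toNat : ℕ) : 𝓞 K) - ((x : 𝓞 K) + y * ω) ∈ v.asIdeal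
    rw [e2, memb hp hv ha]
    refine ⟨-((x + y * a) / p), ?_⟩
    have := Int.emod_add_mul_ediv (x + y * a) p
    linarith
  have h1 : nm v ≤ p := by
    have h2 := Nat.card_le_card_of_surjective _ hsurj
    rw [Nat.card_eq_fintype_card (α := Fin p), Fintype.card_fin] at h2
    unfold nm
    rw [Ideal.absNorm_apply, Submodule.cardQuot_apply]
    exact h2
  obtain ⟨h2, h3, -⟩ := nm_eq v
  rw [below_eq hp hv] at h2
  rw [h2] at h1
  have h4 : deg v ≤ 1 := by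
    have h5 : p ^ deg v ≤ p ^ 1 := by rw [pow_one]; exact h1
    exact (Nat.pow_le_pow_iff_right hp.one_lt).1 h5
  omega

theorem cases (D : Dat K n c ω) {p : ℕ} {v : HeightOneSpectrum (𝓞 K)}
    (hv : (p : 𝓞 K) ∈ v.asIdeal) {a : ℤ} (hr : (p : ℤ) ∣ a ^ 2 - a + c) :
    ω - (a : 𝓞 K) ∈ v.asIdeal ∨ ω - ((1 - a : ℤ) : 𝓞 K) ∈ v.asIdeal := by
  obtain ⟨k, hk⟩ := hr
  have e : (ω - (a : 𝓞 K)) * (ω - ((1 - a : ℤ) : 𝓞 K)) = p * ((-k : ℤ) : 𝓞 K) := by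
    have h1 := D.rel
    have h2 : ((a ^ 2 - a + c : ℤ) : 𝓞 K) = ((p * k : ℤ) : 𝓞 K) := by rw [hk]
    push_cast at h2 ⊢
    linear_combination h1 - h2
  have h1 : (ω - (a : 𝓞 K)) * (ω - ((1 - a : ℤ) : 𝓞 K)) ∈ v.asIdeal := by
    rw [e]
    exact v.asIdeal.mul_mem_right _ hv
  exact v.isPrime.mem_or_mem h1

theorem exists_max {p : ℕ} (hp : p.Prime) {I : Ideal (𝓞 K)} (hI : I ≠ ⊤) (hpI : (p : 𝓞 K) ∈ I) :
    ∃ v : HeightOneSpectrum (𝓞 K), I ≤ v.asIdeal := by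
  obtain ⟨M, hM, hIM⟩ := Ideal.exists_le_maximal I hI
  have h0 : (p : 𝓞 K) ≠ 0 := by exact_mod_cast hp.ne_zero
  refine ⟨⟨M, hM.isPrime, fun h => h0 ?_⟩, hIM⟩
  have := hIM hpI
  rw [h] at this
  exact this

theorem exists_pl (D : Dat K n c ω) {p : ℕ} (hp : p.Prime) {a : ℤ}
    (hr : (p : ℤ) ∣ a ^ 2 - a + c) :
    ∃ v : HeightOneSpectrum (𝓞 K), (p : 𝓞 K) ∈ v.asIdeal ∧ ω - (a : 𝓞 K) ∈ v.asIdeal := by
  have hI : Ideal.span {(p : 𝓞 K), ω - (a : 𝓞 K)} ≠ ⊤ := by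
    intro h
    rw [Ideal.eq_top_iff_one, Ideal.mem_span_pair] at h
    obtain ⟨α, β, h1⟩ := h
    obtain ⟨x, y, rfl⟩ := D.bas α
    obtain ⟨s, t, rfl⟩ := D.bas β
    obtain ⟨k, hk⟩ := hr
    have h2 : ((p * x - s * a - t * c - 1 : ℤ) : 𝓞 K) + ((p * y + s + t - t * a : ℤ) : 𝓞 K) * ω
        = 0 := by
      have h3 := D.rel
      push_cast
      linear_combination h1 - (t : 𝓞 K) * h3
    obtain ⟨h3, h4⟩ := D.ind _ _ h2
    have h5 : (p : ℤ) * (x + a * y - t * k) = 1 := by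
      linear_combination h3 + a * h4 + t * hk
    have h6 : (p : ℤ) ∣ 1 := ⟨_, h5.symm⟩
    exact (Nat.prime_iff_prime_int.1 hp).not_dvd_one h6
  obtain ⟨v, hv⟩ := exists_max hp hI (Ideal.subset_span (by simp))
  exact ⟨v, hv (Ideal.subset_span (by simp)), hv (Ideal.subset_span (by simp))⟩

theorem exists_root (D : Dat K n c ω) {p : ℕ} (hp : p.Prime) {v : HeightOneSpectrum (𝓞 K)}
    (hv : (p : 𝓞 K) ∈ v.asIdeal) (hd : deg v = 1) : ∃ a : ℤ, (p : ℤ) ∣ a ^ 2 - a + c := by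
  have hnm : nm v = p := by
    rw [(nm_eq v).1, below_eq hp hv, hd, pow_one]
  have hcard : Nat.card (𝓞 K ⧸ v.asIdeal) = p := by
    rw [← hnm]
    unfold nm
    rw [Ideal.absNorm_apply, Submodule.cardQuot_apply]
  have hfin : Finite (𝓞 K ⧸ v.asIdeal) := Nat.finite_of_card_ne_zero (by rw [hcard]; exact hp.ne_zero)
  have hinj : Function.Injective (fun i : Fin p =>
      (Ideal.Quotient.mk v.asIdeal ((i : ℕ) : 𝓞 K))) := by
    intro i j hij
    have h1 : ((i : ℕ) : 𝓞 K) - ((j : ℕ) : 𝓞 K) ∈ v.asIdeal :=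
      (Ideal.Quotient.mk_eq_mk_iff_sub_mem _ _).1 hij
    have h2 : (((i : ℕ) - (j : ℕ) : ℤ) : 𝓞 K) ∈ v.asIdeal := by
      push_cast
      exact h1
    obtain ⟨k, hk⟩ := int_mem hp hv h2
    have hi := i.2
    have hj := j.2
    apply Fin.ext
    have hk0 : k = 0 := by
      by_contra hne
      rcases lt_or_gt_of_ne hne with h | h
      · nlinarith
      · nlinarith
    rw [hk0] at hk
    omega
  have hbij := (Nat.bijective_iff_injective_and_card _).2 ⟨hinj, by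
    rw [hcard, Nat.card_eq_fintype_card, Fintype.card_fin]⟩
  obtain ⟨i, hi⟩ := hbij.2 (Ideal.Quotient.mk v.asIdeal ω)
  have h1 : ((i : ℕ) : 𝓞 K) - ω ∈ v.asIdeal := (Ideal.Quotient.mk_eq_mk_iff_sub_mem _ _).1 hi
  refine ⟨(i : ℕ), int_mem hp hv ?_⟩
  have e : ((((i : ℕ) : ℤ) ^ 2 - ((i : ℕ) : ℤ) + c : ℤ) : 𝓞 K) =
      (((i : ℕ) : 𝓞 K) + ω - 1) * (((i : ℕ) : 𝓞 K) - ω) := by
    have h3 := D.rel
    push_cast
    linear_combination h3
  rw [e]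
  exact v.asIdeal.mul_mem_left _ h1

theorem deg_le (D : Dat K n c ω) {p : ℕ} (hp : p.Prime) {v : HeightOneSpectrum (𝓞 K)}
    (hv : (p : 𝓞 K) ∈ v.asIdeal) : deg v ≤ 2 ∧ (deg v = 2 → v.asIdeal = Ideal.span {(p : 𝓞 K)}) := by
  have h1 : v.asIdeal ∣ Ideal.span {(p : 𝓞 K)} := by
    rw [Ideal.dvd_iff_le, Ideal.span_singleton_le_iff_mem]
    exact hv
  have h2 : Ideal.absNorm (Ideal.span {(p : 𝓞 K)}) = p ^ 2 := by
    rw [Ideal.absNorm_span_natCast, RingOfIntegers.rank, D.rk]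
  have h3 : nm v ∣ p ^ 2 := by
    rw [← h2]
    exact map_dvd Ideal.absNorm h1
  have h4 : nm v = p ^ deg v := by rw [(nm_eq v).1, below_eq hp hv]
  refine ⟨?_, fun h5 => ?_⟩
  · rw [h4] at h3
    exact (Nat.pow_dvd_pow_iff_le_right hp.one_lt).1 h3
  · obtain ⟨J, hJ⟩ := h1
    have h6 : Ideal.absNorm J = 1 := by
      have h7 := congrArg Ideal.absNorm hJ
      rw [h2, map_mul] at h7
      have h8 : Ideal.absNorm v.asIdeal = p ^ 2 := by
        rw [← h5]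
        exact h4
      rw [h8] at h7
      have h9 : 0 < p ^ 2 := pow_pos hp.pos 2
      have : p ^ 2 * 1 = p ^ 2 * Ideal.absNorm J := by rw [mul_one]; exact h7
      exact (Nat.eq_of_mul_eq_mul_left h9 this).symm
    rw [Ideal.absNorm_eq_one_iff] at h6
    rw [h6, Ideal.mul_top] at hJ
    exact hJ.symm

end

end Run7.h741.XK.Plc
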